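import Pool.Agent.Helper68.ES.St1

/-!
# Project ES (MP_cb927e_an): module DRS, separated directions
-/

set_option autoImplicit false

open MeasureTheory Set Filter Topology
open scoped ENNReal RealInnerProductSpace

namespace Pool.Agent.Helper7.ES

open Pool.Agent.Helper68.ES Pool.Agent.Helper68.EP Pool.Agent.Helper20.RG
open Pool.Agent.Helper20.RL (RQ Rich BM Fml Hit)
open Pool.Agent.Helper68.LM (Pl BB Bd Av HL ft fm DQ)

/-- the counting function as a sum of indicators -/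
theorem cnt_eq (N : ℕ) (Et : ℕ → Set Pl) (x : Pl) :
    ∑ j ∈ Finset.range N, (Et j).indicator (fun _ => (1 : ℝ≥0∞)) x =
      (({j : ℕ | j < N ∧ x ∈ Et j}.ncard : ℕ) : ℝ≥0∞) := by
  classical
  have h1 : {j : ℕ | j < N ∧ x ∈ Et j} = ((Finset.range N).filter (fun j => x ∈ Et j) : Set ℕ) := by
    ext j
    simp
  rw [h1, Set.ncard_coe_finset]
  simp only [Set.indicator_apply]
  rw [Finset.sum_ite, Finset.sum_const_zero, add_zero, Finset.sum_const, nsmul_eq_mul, mul_one]

/-- dyadic decomposition of a number -/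
theorem dyad (N k : ℕ) (m₀ : ℝ) (hm : 1 ≤ m₀) (hk : k ≤ N) :
    (k : ℝ≥0∞) ≤ ENNReal.ofReal m₀ + 2 * ∑ a ∈ Finset.range N,
      (if ENNReal.ofReal (2 ^ a * m₀) ≤ (k : ℝ≥0∞) then ENNReal.ofReal (2 ^ a * m₀) else 0) := by
  classical
  by_cases h0 : (k : ℝ) < m₀
  · refine le_trans ?_ le_self_add
    rw [← ENNReal.ofReal_natCast]
    exact ENNReal.ofReal_le_ofReal h0.le
  · push Not at h0
    have hex : ∃ i : ℕ, (k : ℝ) < 2 ^ i * m₀ := by
      refine ⟨N, ?_⟩
      have h1 : (N : ℝ) < 2 ^ N := by exact_mod_cast Nat.lt_two_pow_self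
      have h2 : (k : ℝ) ≤ N := by exact_mod_cast hk
      have h3 : (2 : ℝ) ^ N * 1 ≤ 2 ^ N * m₀ := mul_le_mul_of_nonneg_left hm (by positivity)
      linarith
    set i := Nat.find hex with hi
    have hi1 : (k : ℝ) < 2 ^ i * m₀ := Nat.find_spec hex
    have hi0 : i ≠ 0 := by
      intro h
      rw [h] at hi1
      simp at hi1
      linarith
    obtain ⟨a, ha⟩ := Nat.exists_eq_succ_of_ne_zero hi0
    have ha1 : ¬ ((k : ℝ) < 2 ^ a * m₀) := Nat.find_min hex (by rw [← hi, ha]; exact Nat.lt_succ_self a)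
    push Not at ha1
    have haN : a < N := by
      have h1 : (N : ℝ) < 2 ^ N := by exact_mod_cast Nat.lt_two_pow_self
      have h2 : (k : ℝ) ≤ N := by exact_mod_cast hk
      by_contra hc
      push Not at hc
      have h3 : (2 : ℝ) ^ N ≤ 2 ^ a := pow_le_pow_right₀ (by norm_num) hc
      have h4 : (2 : ℝ) ^ a * 1 ≤ 2 ^ a * m₀ := mul_le_mul_of_nonneg_left hm (by positivity)
      linarith
    have hcond : ENNReal.ofReal (2 ^ a * m₀) ≤ (k : ℝ≥0∞) := by
      rw [← ENNReal.ofReal_natCast]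
      exact ENNReal.ofReal_le_ofReal ha1
    have h5 : (k : ℝ≥0∞) ≤ 2 * ENNReal.ofReal (2 ^ a * m₀) := by
      rw [← ENNReal.ofReal_natCast, show (2 : ℝ≥0∞) = ENNReal.ofReal 2 by simp,
        ← ENNReal.ofReal_mul (by norm_num)]
      apply ENNReal.ofReal_le_ofReal
      rw [ha, pow_succ] at hi1
      nlinarith
    refine h5.trans (le_trans ?_ le_add_self)
    gcongr
    calc ENNReal.ofReal (2 ^ a * m₀)
        = (if ENNReal.ofReal (2 ^ a * m₀) ≤ (k : ℝ≥0∞) then ENNReal.ofReal (2 ^ a * m₀) else 0) := by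
          rw [if_pos hcond]
      _ ≤ _ := Finset.single_le_sum
          (f := fun a => (if ENNReal.ofReal (2 ^ a * m₀) ≤ (k : ℝ≥0∞) then
            ENNReal.ofReal (2 ^ a * m₀) else 0)) (fun _ _ => zero_le) (Finset.mem_range.2 haN)

/-- integrated form of `dyad` -/
theorem layer (N : ℕ) (m₀ : ℝ) (hm : 1 ≤ m₀) (K : Set Pl) (Et : ℕ → Set Pl)
    (hE : ∀ j < N, MeasurableSet (Et j)) :
    ∑ j ∈ Finset.range N, volume (K ∩ Et j) ≤ ENNReal.ofReal m₀ * volume K +
      2 * ∑ a ∈ Finset.range N, ENNReal.ofReal (2 ^ a * m₀) *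
        volume {x | x ∈ K ∧ 2 ^ a * m₀ ≤ ({j : ℕ | j < N ∧ x ∈ Et j}.ncard : ℝ)} := by
  classical
  set f : Pl → ℝ≥0∞ := fun x => ∑ j ∈ Finset.range N, (Et j).indicator (fun _ => (1 : ℝ≥0∞)) x with hf
  have hfm : Measurable f := by
    apply Finset.measurable_fun_sum
    intro j hj
    exact measurable_const.indicator (hE j (Finset.mem_range.1 hj))
  have h1 : ∑ j ∈ Finset.range N, volume (K ∩ Et j) = ∫⁻ x in K, f x := by
    rw [hf, lintegral_finset_sum']
    · apply Finset.sum_congr rfl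
      intro j hj
      rw [lintegral_indicator (hE j (Finset.mem_range.1 hj)), setLIntegral_const, one_mul,
        Measure.restrict_apply (hE j (Finset.mem_range.1 hj)), Set.inter_comm]
    · intro j hj
      exact (measurable_const.indicator (hE j (Finset.mem_range.1 hj))).aemeasurable
  set G : ℕ → Set Pl := fun a => {x | ENNReal.ofReal (2 ^ a * m₀) ≤ f x} with hG
  have hGm : ∀ a, MeasurableSet (G a) := fun a => measurableSet_le measurable_const hfm
  have h2 : ∀ x, f x ≤ ENNReal.ofReal m₀ + 2 * ∑ a ∈ Finset.range N,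
      (G a).indicator (fun _ => ENNReal.ofReal (2 ^ a * m₀)) x := by
    intro x
    have h3 := cnt_eq N Et x
    have h4 : {j : ℕ | j < N ∧ x ∈ Et j}.ncard ≤ N := by
      have h5 : {j : ℕ | j < N ∧ x ∈ Et j} ⊆ (Finset.range N : Set ℕ) := by
        intro j hj
        simpa using hj.1
      calc {j : ℕ | j < N ∧ x ∈ Et j}.ncard ≤ (Finset.range N : Set ℕ).ncard :=
            Set.ncard_le_ncard h5 (Finset.finite_toSet _)
        _ = N := by rw [Set.ncard_coe_finset, Finset.card_range]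
    have h6 := dyad N _ m₀ hm h4
    have h7 : f x = (({j : ℕ | j < N ∧ x ∈ Et j}.ncard : ℕ) : ℝ≥0∞) := h3
    rw [h7]
    refine h6.trans_eq ?_
    congr 2
    apply Finset.sum_congr rfl
    intro a _
    rw [Set.indicator_apply]
    simp only [hG, Set.mem_setOf_eq, h7]
  calc ∑ j ∈ Finset.range N, volume (K ∩ Et j) = ∫⁻ x in K, f x := h1
    _ ≤ ∫⁻ x in K, (ENNReal.ofReal m₀ + 2 * ∑ a ∈ Finset.range N,
      (G a).indicator (fun _ => ENNReal.ofReal (2 ^ a * m₀)) x) := lintegral_mono h2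
    _ = ENNReal.ofReal m₀ * volume K + 2 * ∑ a ∈ Finset.range N, ENNReal.ofReal (2 ^ a * m₀) *
        volume (G a ∩ K) := by
        rw [lintegral_add_left measurable_const, setLIntegral_const, lintegral_const_mul]
        · congr 2
          rw [lintegral_finset_sum]
          · apply Finset.sum_congr rfl
            intro a _
            rw [lintegral_indicator (hGm a), setLIntegral_const, Measure.restrict_apply (hGm a)]
          · intro a _
            exact measurable_const.indicator (hGm a)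
        · apply Finset.measurable_fun_sum
          intro a _
          exact measurable_const.indicator (hGm a)
    _ ≤ _ := by
        gcongr with a _
        intro x hx
        refine ⟨hx.2, ?_⟩
        have h3 : ENNReal.ofReal (2 ^ a * m₀) ≤ f x := hx.1
        rw [show f x = (({j : ℕ | j < N ∧ x ∈ Et j}.ncard : ℕ) : ℝ≥0∞) from cnt_eq N Et x] at h3
        rw [← ENNReal.ofReal_natCast] at h3
        exact (ENNReal.ofReal_le_ofReal_iff (Nat.cast_nonneg _)).1 h3

theorem hDRS (hPT : Pool.Agent.Helper20.RG.StPT) (hRDS : Pool.Agent.Helper20.RG.StRDS)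
    (hDRI : StDRI) (hDRB : StDRB) (hDRM : StDRM) : Pool.Agent.Helper68.ES.StDRS := by
  classical
  obtain ⟨C₀, hC₀, hR⟩ := hRDS
  set C₁ : ℝ := 10 ^ 9 * (1 + C₀) with hC₁
  have hC₁1 : 10 ^ 9 ≤ C₁ := by rw [hC₁]; nlinarith
  have hC₁2 : 250880000 * C₀ ≤ C₁ := by rw [hC₁]; nlinarith
  refine ⟨2 * C₁, by linarith, ?_⟩
  intro N g s K a b D θ hs hK hD hCD hθ1 hg hbg hDn hNg hsep
  have hθ : 0 < θ := lt_of_lt_of_le (by positivity) hCD
  -- the data
  set Et : ℕ → Set Pl := fun j => Ri K (s j) a b θ ((2 : ℝ) ^ a) with hEt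
  set Er : ℕ → Set Pl := fun j => Ri K (s j) a b θ (2 * (2 : ℝ) ^ a) with hEr
  have h2a : (0 : ℝ) < (2 : ℝ) ^ a := by positivity
  have hEto : ∀ j, IsOpen (Et j) := fun j => (hDRI K (s j) a b θ hK hθ).1 _
  have hEro : ∀ j, IsOpen (Er j) := fun j => (hDRI K (s j) a b θ hK hθ).1 _
  set T : ℝ≥0∞ := ∑ j ∈ Finset.range N, volume (K ∩ Wd K (s j) a b θ) with hT
  set S : ℝ≥0∞ := ∑ j ∈ Finset.range N, volume (K ∩ Et j) with hS
  have hTS : T ≤ S := by
    apply Finset.sum_le_sum
    intro j _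
    apply measure_mono
    rintro z ⟨hz1, hz2⟩
    exact ⟨hz1, (hDRI K (s j) a b θ hK hθ).2.2.1 _ z h2a hz2⟩
  have hKfin : volume K < ⊤ := hK.2.measure_lt_top
  have hSfin : S ≠ ⊤ := by
    apply ne_of_lt
    apply ENNReal.sum_lt_top.2
    intro j _
    exact lt_of_le_of_lt (measure_mono Set.inter_subset_left) hKfin
  have hSr : ∑ j ∈ Finset.range N, volume (Er j) ≤ ENNReal.ofReal (35 / θ) * T := by
    rw [hT, Finset.mul_sum]
    apply Finset.sum_le_sum
    intro j _
    exact (hDRI K (s j) a b θ hK hθ).2.2.2.1 _ le_rfl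
  -- the numbers
  set m₀ : ℝ := C₁ * (1 + D / θ ^ 2) with hm₀
  have hDθ : 0 < D / θ ^ 2 := by positivity
  have hm₀1 : C₁ ≤ m₀ := by
    rw [hm₀]
    nlinarith
  have hm₀2 : C₁ * (D / θ ^ 2) ≤ m₀ := by
    rw [hm₀]
    nlinarith
  have hm₀p : 0 < m₀ := by linarith
  have hm₀o : 1 ≤ m₀ := by linarith
  set c : ℝ := 224000 * D / θ with hc
  have hcp : 0 < c := by positivity
  set r₁ : ℝ := 2 * (2 : ℝ) ^ (a - 14 - 4 * (g : ℤ)) with hr₁
  set L : ℝ := (2 : ℝ) ^ (a - 7 - 3 * (g : ℤ)) with hL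
  set r₂ : ℝ := 5 * L / 2 with hr₂
  have hb1 : (2 : ℝ) ^ b ≤ r₁ := by
    rw [hr₁]
    calc (2 : ℝ) ^ b ≤ (2 : ℝ) ^ (a - 14 - 4 * (g : ℤ)) := zpow_le_zpow_right₀ (by norm_num) (by omega)
      _ ≤ _ := by nlinarith [show (0 : ℝ) < (2 : ℝ) ^ (a - 14 - 4 * (g : ℤ)) by positivity]
  have hb2 : (2 : ℝ) ^ b ≤ r₂ := by
    rw [hr₂, hL]
    calc (2 : ℝ) ^ b ≤ (2 : ℝ) ^ (a - 7 - 3 * (g : ℤ)) := zpow_le_zpow_right₀ (by norm_num) (by omega)
      _ ≤ _ := by nlinarith [show (0 : ℝ) < (2 : ℝ) ^ (a - 7 - 3 * (g : ℤ)) by positivity]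
  have hb0 : (0 : ℝ) < (2 : ℝ) ^ b := by positivity
  have hDR := (hDRB K D b hD.le hDn).2.1
  -- the bad sets of DRM
  have hBad : ∀ r : ℝ, (2 : ℝ) ^ b ≤ r → ∑ i ∈ Finset.range N, ENNReal.ofReal (2 ^ i * m₀) *
      volume {x | x ∈ K ∧ ENNReal.ofReal (c * (2 ^ i * m₀) * r ^ 2) <
        ∑ j ∈ Finset.range N, volume (Er j ∩ Sq x r)} ≤ ENNReal.ofReal (1 / 128) * S := by
    intro r hr
    have h1 := hDRM N N K Er r (25 * D) c m₀ hK.1 (fun j _ => (hEro j).measurableSet)
      (lt_of_lt_of_le hb0 hr) (by positivity) hcp hm₀p (fun y => hDR y r hr)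
    calc _ ≤ ENNReal.ofReal (2 * (25 * D) / c) * ∑ j ∈ Finset.range N, volume (Er j) := h1
      _ ≤ ENNReal.ofReal (2 * (25 * D) / c) * (ENNReal.ofReal (35 / θ) * S) := by
        gcongr
        exact hSr.trans (by gcongr)
      _ = ENNReal.ofReal (1 / 128) * S := by
        rw [← mul_assoc, ← ENNReal.ofReal_mul (by positivity)]
        congr 2
        rw [hc]
        field_simp
        norm_num
  -- the sets R
  set R : ℕ → Set Pl := fun i => {x | 2 ^ i * m₀ ≤ ({j : ℕ | j < N ∧ x ∈ Et j}.ncard : ℝ) ∧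
    Dens Er N x r₁ (c * (2 ^ i * m₀)) ∧ Dens Er N x r₂ (c * (2 ^ i * m₀))} with hRdef
  have hRi : ∀ i : ℕ, ENNReal.ofReal (2 ^ i * m₀) * volume (R i) ≤
      ENNReal.ofReal ((1 / 2) ^ i) * (ENNReal.ofReal (1 / 32) * S) := by
    intro i
    have hpi : (1 : ℝ) ≤ 2 ^ i := one_le_pow₀ (by norm_num)
    have hmi : m₀ ≤ 2 ^ i * m₀ := by nlinarith
    have hmip : 0 < 2 ^ i * m₀ := by linarith
    have hθD : 44800000 * D ≤ θ := by
      have : 44800000 * D ≤ 2 * C₁ * D := by
        apply mul_le_mul_of_nonneg_right _ hD.le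
        linarith
      linarith
    have h1 := hR N s Et Er (a - 14 - 4 * (g : ℤ)) L ((2 : ℝ) ^ (a - 5)) ((2 : ℝ) ^ (-(g : ℤ)))
      (c * (2 ^ i * m₀)) (2 ^ i * m₀) 1 (R i) hs (fun j _ => ⟨hEto j, (hEro j).measurableSet⟩)
      (by
        intro j _ y hy lam hlam
        have h2 := (hDRI K (s j) a b θ hK hθ).2.1 ((2 : ℝ) ^ a) ((2 : ℝ) ^ a) lam y hy (by
          refine hlam.trans ?_
          rw [zpow_sub₀ (by norm_num : (2 : ℝ) ≠ 0)]
          norm_num
          nlinarith)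
        rw [← two_mul] at h2
        exact h2)
      (by positivity)
      (by
        apply zpow_le_one_of_nonpos₀ (by norm_num)
        omega)
      (by positivity)
      (by
        rw [hL, ← zpow_add₀ (by norm_num : (2 : ℝ) ≠ 0)]
        have h2 : -(g : ℤ) + (a - 7 - 3 * (g : ℤ)) = (a - 14 - 4 * (g : ℤ)) + 7 := by ring
        rw [h2, zpow_add₀ (by norm_num : (2 : ℝ) ≠ 0)]
        have h3 : (0 : ℝ) < (2 : ℝ) ^ (a - 14 - 4 * (g : ℤ)) := by positivity
        have h4 : (2 : ℝ) ^ (7 : ℤ) = 128 := by norm_num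
        rw [h4]
        nlinarith)
      (by
        rw [hL]
        have h2 : ((2 : ℝ) ^ (-(g : ℤ))) ^ 2 * (2 : ℝ) ^ (a - 5) =
            (2 : ℝ) ^ g * (2 : ℝ) ^ (a - 7 - 3 * (g : ℤ)) * 4 := by
          rw [← zpow_natCast, ← zpow_mul, ← zpow_add₀ (by norm_num : (2 : ℝ) ≠ 0), ← zpow_natCast (2 : ℝ) g,
            ← zpow_add₀ (by norm_num : (2 : ℝ) ≠ 0), show (4 : ℝ) = (2 : ℝ) ^ (2 : ℤ) by norm_num,
            ← zpow_add₀ (by norm_num : (2 : ℝ) ≠ 0)]
          congr 1
          push_cast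
          ring
        rw [h2]
        have h3 : (0 : ℝ) < (2 : ℝ) ^ (a - 7 - 3 * (g : ℤ)) := by positivity
        have h4 : (0 : ℝ) < (2 : ℝ) ^ g := by positivity
        calc (N : ℝ) * (2 : ℝ) ^ (a - 7 - 3 * (g : ℤ)) ≤ (3 * 2 ^ g) * (2 : ℝ) ^ (a - 7 - 3 * (g : ℤ)) := by
              gcongr
          _ ≤ _ := by nlinarith [mul_pos h4 h3])
      (by
        intro j hj
        have h2 : {j' : ℕ | j' < N ∧ |s j - s j'| ≤ (2 : ℝ) ^ (-(g : ℤ))} ⊆ {j} := by
          rintro j' ⟨h3, h4⟩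
          by_contra hne
          have hne' : j ≠ j' := fun h => hne (by simp [h])
          exact absurd h4 (not_le.2 (hsep j hj j' h3 hne'))
        have h5 := Set.ncard_le_ncard h2 (Set.finite_singleton j)
        rw [Set.ncard_singleton] at h5
        exact_mod_cast h5)
      (by linarith)
      (by linarith)
      (by positivity)
      (by
        have h2 : 200 * c ≤ 1 := by
          rw [hc]
          rw [← mul_div_assoc, div_le_one hθ]
          linarith
        nlinarith)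
      (by
        intro x hx
        exact hx)
    calc ENNReal.ofReal (2 ^ i * m₀) * volume (R i)
        ≤ ENNReal.ofReal (2 ^ i * m₀) * (ENNReal.ofReal (C₀ * 1 * (c * (2 ^ i * m₀)) / (2 ^ i * m₀) ^ 3) *
            (ENNReal.ofReal (35 / θ) * S)) := by
          gcongr
          refine h1.trans ?_
          gcongr
          exact hSr.trans (by gcongr)
      _ ≤ ENNReal.ofReal ((1 / 2) ^ i) * (ENNReal.ofReal (1 / 32) * S) := by
          have e1 : ENNReal.ofReal ((1 / 2) ^ i) * (ENNReal.ofReal (1 / 32) * S) =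
              ENNReal.ofReal ((1 / 2) ^ i * (1 / 32)) * S := by
            rw [← mul_assoc, ← ENNReal.ofReal_mul (by positivity)]
          rw [e1, ← mul_assoc, ← mul_assoc, ← ENNReal.ofReal_mul (by positivity),
            ← ENNReal.ofReal_mul (by positivity)]
          refine mul_le_mul_left (ENNReal.ofReal_le_ofReal ?_) _
          have h2 : 2 ^ i * m₀ * (C₀ * 1 * (c * (2 ^ i * m₀)) / (2 ^ i * m₀) ^ 3) * (35 / θ) =
              (1 / 2) ^ i * ((7840000 * C₀ * (D / θ ^ 2)) / m₀) := by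
            rw [hc, one_div, inv_pow]
            field_simp
            norm_num
          rw [h2]
          refine mul_le_mul_of_nonneg_left ?_ (by positivity)
          rw [div_le_iff₀ hm₀p]
          have h3 : 250880000 * C₀ * (D / θ ^ 2) ≤ C₁ * (D / θ ^ 2) :=
            mul_le_mul_of_nonneg_right hC₁2 hDθ.le
          linarith
  have hRsum : ∑ i ∈ Finset.range N, ENNReal.ofReal (2 ^ i * m₀) * volume (R i) ≤
      ENNReal.ofReal (1 / 16) * S := by
    calc _ ≤ ∑ i ∈ Finset.range N, ENNReal.ofReal ((1 / 2) ^ i) * (ENNReal.ofReal (1 / 32) * S) :=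
          Finset.sum_le_sum fun i _ => hRi i
      _ = ENNReal.ofReal (∑ i ∈ Finset.range N, (1 / 2 : ℝ) ^ i) * (ENNReal.ofReal (1 / 32) * S) := by
          rw [← Finset.sum_mul, ENNReal.ofReal_sum_of_nonneg]
          intro i _
          positivity
      _ ≤ ENNReal.ofReal 2 * (ENNReal.ofReal (1 / 32) * S) := by
          gcongr
          exact sum_geometric_two_le N
      _ = ENNReal.ofReal (1 / 16) * S := by
          rw [← mul_assoc, ← ENNReal.ofReal_mul (by norm_num)]
          norm_num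
  -- assembly
  have hmain := layer N m₀ hm₀o K Et (fun j _ => (hEto j).measurableSet)
  have hsplit : ∑ i ∈ Finset.range N, ENNReal.ofReal (2 ^ i * m₀) *
      volume {x | x ∈ K ∧ 2 ^ i * m₀ ≤ ({j : ℕ | j < N ∧ x ∈ Et j}.ncard : ℝ)} ≤
      ENNReal.ofReal (1 / 128) * S + ENNReal.ofReal (1 / 128) * S + ENNReal.ofReal (1 / 16) * S := by
    calc _ ≤ ∑ i ∈ Finset.range N, (ENNReal.ofReal (2 ^ i * m₀) *
            volume {x | x ∈ K ∧ ENNReal.ofReal (c * (2 ^ i * m₀) * r₁ ^ 2) <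
              ∑ j ∈ Finset.range N, volume (Er j ∩ Sq x r₁)} +
          ENNReal.ofReal (2 ^ i * m₀) * volume {x | x ∈ K ∧ ENNReal.ofReal (c * (2 ^ i * m₀) * r₂ ^ 2) <
              ∑ j ∈ Finset.range N, volume (Er j ∩ Sq x r₂)} +
          ENNReal.ofReal (2 ^ i * m₀) * volume (R i)) := by
          apply Finset.sum_le_sum
          intro i _
          rw [← mul_add, ← mul_add]
          gcongr
          refine le_trans (measure_mono ?_) ((measure_union_le _ _).trans
            (add_le_add_left (measure_union_le _ _) _))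
          rintro x ⟨hxK, hx⟩
          by_cases h1 : ENNReal.ofReal (c * (2 ^ i * m₀) * r₁ ^ 2) <
              ∑ j ∈ Finset.range N, volume (Er j ∩ Sq x r₁)
          · exact Or.inl (Or.inl ⟨hxK, h1⟩)
          by_cases h2 : ENNReal.ofReal (c * (2 ^ i * m₀) * r₂ ^ 2) <
              ∑ j ∈ Finset.range N, volume (Er j ∩ Sq x r₂)
          · exact Or.inl (Or.inr ⟨hxK, h2⟩)
          · exact Or.inr ⟨hx, not_lt.1 h1, not_lt.1 h2⟩
      _ ≤ _ := by
          rw [Finset.sum_add_distrib, Finset.sum_add_distrib]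
          exact add_le_add (add_le_add (hBad r₁ hb1) (hBad r₂ hb2)) hRsum
  have hfin : S ≤ ENNReal.ofReal m₀ * volume K + ENNReal.ofReal (1 / 2) * S := by
    refine hmain.trans (add_le_add le_rfl ?_)
    calc 2 * ∑ i ∈ Finset.range N, ENNReal.ofReal (2 ^ i * m₀) *
          volume {x | x ∈ K ∧ 2 ^ i * m₀ ≤ ({j : ℕ | j < N ∧ x ∈ Et j}.ncard : ℝ)}
        ≤ 2 * (ENNReal.ofReal (1 / 128) * S + ENNReal.ofReal (1 / 128) * S +
            ENNReal.ofReal (1 / 16) * S) := by gcongr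
      _ = ENNReal.ofReal (2 * (1 / 128 + 1 / 128 + 1 / 16)) * S := by
          rw [← add_mul, ← add_mul, ← ENNReal.ofReal_add (by norm_num) (by norm_num),
            ← ENNReal.ofReal_add (by norm_num) (by norm_num), ← mul_assoc,
            show (2 : ℝ≥0∞) = ENNReal.ofReal 2 by simp, ← ENNReal.ofReal_mul (by norm_num)]
      _ ≤ ENNReal.ofReal (1 / 2) * S := by
          gcongr
          norm_num
  have hhalf : ENNReal.ofReal (1 / 2) * S + ENNReal.ofReal (1 / 2) * S = S := by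
    rw [← add_mul, ← ENNReal.ofReal_add (by norm_num) (by norm_num)]
    norm_num
  have hX : ENNReal.ofReal (1 / 2) * S ≤ ENNReal.ofReal m₀ * volume K := by
    have h1 : ENNReal.ofReal (1 / 2) * S ≠ ⊤ := ENNReal.mul_ne_top ENNReal.ofReal_ne_top hSfin
    rw [← hhalf] at hfin
    refine ENNReal.le_of_add_le_add_right h1 ?_
    refine hfin.trans_eq ?_
    rw [hhalf]
  have hgoal : S ≤ ENNReal.ofReal (2 * C₁ * (1 + D / θ ^ 2)) * volume K := by
    calc S = ENNReal.ofReal 2 * (ENNReal.ofReal (1 / 2) * S) := by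
          rw [← mul_assoc, ← ENNReal.ofReal_mul (by norm_num)]
          norm_num
      _ ≤ ENNReal.ofReal 2 * (ENNReal.ofReal m₀ * volume K) := by gcongr
      _ = _ := by
          rw [← mul_assoc, ← ENNReal.ofReal_mul (by norm_num)]
          congr 2
          rw [hm₀]
          ring
  exact hgoal

end Pool.Agent.Helper7.ES
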